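import Pool.Agent.Helper58.DG3.Part3
import Pool.Agent.Helper49.DG2.KCell

/-!
# Threads: the cells of different good kites
-/

set_option autoImplicit false

namespace Pool.Agent.Helper58.DG3

open Pool.Agent.Helper18.RAC Complex
open Pool.Agent.Helper82.DG (NE SE NW SW Fr CoreH)

variable {V : Type*}

theorem KCell.sub3 {H : SimpleGraph V} {f : V → ℂ} {κ κ' : GX → V} {A B : Set ℂ}
    {x y x' y' : V} (hA : KCell H f κ A x y) (hB : KCell H f κ' B x' y')
    (nB : ∀ v, Cor κ v → f v ∉ B) (hne : (A ∩ B).Nonempty) : B ⊆ A := by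
  intro z hz
  by_contra hzA
  obtain ⟨w, hwA, hwB⟩ := hne
  obtain ⟨q, hqB, hqA⟩ :=
    Pool.Agent.Helper74.DG2.meets_frontier hB.pc hA.op ⟨w, hwB, hwA⟩ ⟨z, hz, hzA⟩
  obtain ⟨p, p', c, c', hp, hseg⟩ := hA.fr q hqA
  rcases hB.thr p p' q hp hseg hqB with h | h
  · exact nB p c h
  · exact nB p' c' h

/-- cells which meet have the same corners -/
theorem KCell.meet3 {H : SimpleGraph V} {f : V → ℂ} {κ κ' : GX → V} {A B : Set ℂ}
    {x y x' y' : V} (hA : KCell H f κ A x y) (hB : KCell H f κ' B x' y')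
    (nA : ∀ v, Cor κ' v → f v ∉ A) (nB : ∀ v, Cor κ v → f v ∉ B) (hne : (A ∩ B).Nonempty) :
    (x = x' ∨ x = y') ∧ (y = x' ∨ y = y') ∧ (x' = x ∨ x' = y) ∧ (y' = x ∨ y' = y) := by
  have h1 : B ⊆ A := hA.sub3 hB nB hne
  have h2 : A ⊆ B := hB.sub3 hA nA (by rwa [Set.inter_comm])
  have h3 : A = B := h2.antisymm h1
  subst h3
  exact ⟨hB.fv x hA.hx, hB.fv y hA.hy, hA.fv x' hB.hx, hA.fv y' hB.hy⟩

section

variable {a b : V} {p : ℕ → V} {κ : ℕ → GX → V} {m K : ℕ} {π : Par} {H : SimpleGraph V} {f : V → ℂ}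
  {i j : ℕ} {A₀ A₁ A₂ B₀ B₁ B₂ : Set ℂ}

theorem LayD.code_ne3 (hl : LayD a b p κ m K π) {c : Code} (hc : c.valid m) :
    (c.ends a b p).1 ≠ (c.ends a b p).2 := by
  cases c with
  | ab => exact hl.ab
  | A j => exact (hl.pa j hc).symm
  | B j => exact (hl.pb j hc).symm
  | I i j =>
    intro h1
    have h2 := hl.pinj i (hc.1.trans hc.2.2) j hc.2.2 h1
    have h3 := hc.1
    omega

theorem LayD.code_adj3 (hl : LayD a b p κ m K π) {c : Code} (hc : c.valid m) {t : ℕ} :
    (GDt a b p κ m π t).Adj (c.ends a b p).1 (c.ends a b p).2 := by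
  unfold GDt
  rw [SimpleGraph.fromEdgeSet_adj]
  exact ⟨Or.inl ⟨c, hc, rfl⟩, hl.code_ne3 hc⟩

theorem LayD.core3 (hl : LayD a b p κ m K π) : Core (GDt a b p κ m π K) a b p m where
  ha := fun i hi => hl.code_adj3 (c := .A i) hi
  hb := fun i hi => hl.code_adj3 (c := .B i) hi
  inj := hl.pinj
  h1 := fun i hi => hl.code_adj3 (c := .I i (i + 1)) ⟨by omega, by omega, hi⟩
  h2 := fun i hi => hl.code_adj3 (c := .I i (i + 2)) ⟨by omega, by omega, hi⟩

theorem LayD.hub_ne (hl : LayD a b p κ m K π) (hi : i < K) {k : ℕ} (hk : k < m) :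
    κ i (.X false) ≠ p k := by
  rw [hl.kN i hi]
  split_ifs
  · exact (hl.pb k hk).symm
  · exact (hl.pa k hk).symm

/-- the path vertices among the corners -/
theorem LayD.cor_p (hl : LayD a b p κ m K π) (hi : i < K) (hj : j < m) (h : Cor (κ i) (p j)) :
    i ≤ j ∧ j ≤ i + 2 := by
  have hm := hl.hm
  rcases h with h | h | h | h
  · exact absurd h.symm (hl.hub_ne hi hj)
  · rw [hl.kE i hi] at h
    have := hl.pinj j hj (i + 2) (by omega) h
    omega
  · rw [hl.kS i hi] at h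
    have := hl.pinj j hj (i + 1) (by omega) h
    omega
  · rw [hl.kW i hi] at h
    have := hl.pinj j hj i (by omega) h
    omega

/-- a corner is a hub or a path vertex -/
theorem LayD.cor_cases (hl : LayD a b p κ m K π) (hi : i < K) {v : V} (h : Cor (κ i) v) :
    v = a ∨ v = b ∨ ∃ j < m, v = p j := by
  have hm := hl.hm
  rcases h with h | h | h | h
  · rw [hl.kN i hi] at h
    split_ifs at h
    · exact Or.inr (Or.inl h)
    · exact Or.inl h
  · rw [hl.kE i hi] at h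
    exact Or.inr (Or.inr ⟨i + 2, by omega, h⟩)
  · rw [hl.kS i hi] at h
    exact Or.inr (Or.inr ⟨i + 1, by omega, h⟩)
  · rw [hl.kW i hi] at h
    exact Or.inr (Or.inr ⟨i, by omega, h⟩)

/-- not both hubs are corners -/
theorem LayD.not_both (hl : LayD a b p κ m K π) (hi : i < K) (ha : Cor (κ i) a)
    (hb : Cor (κ i) b) : False := by
  have hm := hl.hm
  have h1 : κ i (.X false) = a := by
    rcases ha with h | h | h | h
    · exact h.symm
    · rw [hl.kE i hi] at h
      exact absurd h.symm (hl.pa _ (by omega))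
    · rw [hl.kS i hi] at h
      exact absurd h.symm (hl.pa _ (by omega))
    · rw [hl.kW i hi] at h
      exact absurd h.symm (hl.pa _ (by omega))
  have h2 : κ i (.X false) = b := by
    rcases hb with h | h | h | h
    · exact h.symm
    · rw [hl.kE i hi] at h
      exact absurd h.symm (hl.pb _ (by omega))
    · rw [hl.kS i hi] at h
      exact absurd h.symm (hl.pb _ (by omega))
    · rw [hl.kW i hi] at h
      exact absurd h.symm (hl.pb _ (by omega))
  exact hl.ab (h1.symm.trans h2)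

theorem LayD.cor_notMem' (hl : LayD a b p κ m K π) (hle : GDt a b p κ m π K ≤ H) (h4 : 4 ≤ m)
    (hi : i < K) (h : GoodK H f a b (κ i) π A₀ A₁ A₂) {v : V}
    (hv : v = a ∨ v = b ∨ ∃ j < m, v = p j) : f v ∉ A₀ ∧ f v ∉ A₁ ∧ f v ∉ A₂ := by
  have hm := hl.hm
  have hcore := hl.core3
  have hp : ∀ k < m, CoreH H a b (p k) := fun k hk =>
    Or.inr (Or.inr ⟨(hle (hcore.ha k hk)).symm, (hle (hcore.hb k hk)).symm⟩)
  have key : ¬ (f v ∈ A₀ ∨ f v ∈ A₁ ∨ f v ∈ A₂) := by
    intro hmem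
    have hk : ∃ k < m, ¬ (i ≤ k ∧ k ≤ i + 2) := by
      rcases Nat.eq_zero_or_pos i with h0 | h0
      · exact ⟨3, by omega, by omega⟩
      · exact ⟨0, by omega, by omega⟩
    obtain ⟨k, hk, hk'⟩ := hk
    rcases hv with rfl | rfl | ⟨k', hk'', rfl⟩
    · exact hk' (hl.cor_p hi hk (h.core _ _ hmem (hle (hcore.ha k hk)) (hp k hk)))
    · exact hk' (hl.cor_p hi hk (h.core _ _ hmem (hle (hcore.hb k hk)) (hp k hk)))
    · exact hl.not_both hi
        (h.core _ _ hmem (hle (hcore.ha k' hk'')).symm (Or.inl rfl))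
        (h.core _ _ hmem (hle (hcore.hb k' hk'')).symm (Or.inr (Or.inl rfl)))
  exact ⟨fun h1 => key (Or.inl h1), fun h1 => key (Or.inr (Or.inl h1)),
    fun h1 => key (Or.inr (Or.inr h1))⟩

/-- every vertex is in at most three cells of good kites, one of each kind -/
theorem LayD.cell_uniq' (hl : LayD a b p κ m K π) (hle : GDt a b p κ m π K ≤ H)
    (hi : i < K) (hj : j < K) (hij : i ≠ j)
    (h : GoodK H f a b (κ i) π A₀ A₁ A₂) (h' : GoodK H f a b (κ j) π B₀ B₁ B₂) :
    Disjoint A₀ B₀ ∧ Disjoint A₁ B₁ ∧ Disjoint A₂ B₂ ∧ Disjoint A₀ B₁ ∧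
      ((A₂ ∩ B₀).Nonempty → i = j + 2) := by
  have hm := hl.hm
  have nA : ∀ v, Cor (κ j) v → f v ∉ A₀ ∧ f v ∉ A₁ ∧ f v ∉ A₂ := fun v hv =>
    hl.cor_notMem' hle (by omega) hi h (hl.cor_cases hj hv)
  have nB : ∀ v, Cor (κ i) v → f v ∉ B₀ ∧ f v ∉ B₁ ∧ f v ∉ B₂ := fun v hv =>
    hl.cor_notMem' hle (by omega) hj h' (hl.cor_cases hi hv)
  have e1 := hl.kE i hi
  have e2 := hl.kS i hi
  have e3 := hl.kW i hi
  have e1' := hl.kE j hj
  have e2' := hl.kS j hj
  have e3' := hl.kW j hj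
  refine ⟨?_, ?_, ?_, ?_, ?_⟩
  · rw [Set.disjoint_iff_inter_eq_empty, ← Set.not_nonempty_iff_eq_empty]
    intro hne
    obtain ⟨-, h2, -, -⟩ := h.c0.meet3 h'.c0 (fun v hv => (nA v hv).1) (fun v hv => (nB v hv).1) hne
    rw [e1, e1'] at h2
    rcases h2 with h2 | h2
    · exact hl.hub_ne hj (by omega) h2.symm
    · have := hl.pinj _ (by omega) _ (by omega) h2
      omega
  · rw [Set.disjoint_iff_inter_eq_empty, ← Set.not_nonempty_iff_eq_empty]
    intro hne
    obtain ⟨h1, h2, -, -⟩ := h.c1.meet3 h'.c1 (fun v hv => (nA v hv).2.1)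
      (fun v hv => (nB v hv).2.1) hne
    rw [e1, e1', e2'] at h1
    rw [e2, e1', e2'] at h2
    rcases h1 with h1 | h1
    · have := hl.pinj _ (by omega) _ (by omega) h1
      omega
    · have q1 := hl.pinj _ (by omega) _ (by omega) h1
      rcases h2 with h2 | h2
      · have := hl.pinj _ (by omega) _ (by omega) h2
        omega
      · have := hl.pinj _ (by omega) _ (by omega) h2
        omega
  · rw [Set.disjoint_iff_inter_eq_empty, ← Set.not_nonempty_iff_eq_empty]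
    intro hne
    obtain ⟨-, h2, -, -⟩ := h.c2.meet3 h'.c2 (fun v hv => (nA v hv).2.2)
      (fun v hv => (nB v hv).2.2) hne
    rw [e3, e3'] at h2
    rcases h2 with h2 | h2
    · exact hl.hub_ne hj (by omega) h2.symm
    · have := hl.pinj _ (by omega) _ (by omega) h2
      omega
  · rw [Set.disjoint_iff_inter_eq_empty, ← Set.not_nonempty_iff_eq_empty]
    intro hne
    obtain ⟨h1, -, -, -⟩ := h.c0.meet3 h'.c1 (fun v hv => (nA v hv).1)
      (fun v hv => (nB v hv).2.1) hne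
    rw [e1', e2'] at h1
    rcases h1 with h1 | h1
    · exact hl.hub_ne hi (by omega) h1
    · exact hl.hub_ne hi (by omega) h1
  · intro hne
    obtain ⟨-, h2, -, -⟩ := h.c2.meet3 h'.c0 (fun v hv => (nA v hv).2.2)
      (fun v hv => (nB v hv).1) hne
    rw [e3, e1'] at h2
    rcases h2 with h2 | h2
    · exact absurd h2.symm (hl.hub_ne hj (by omega))
    · exact hl.pinj _ (by omega) _ (by omega) h2

/-- good vertices of different good kites are not adjacent -/
theorem LayD.dk_notAdj (hl : LayD a b p κ m K π) (hle : GDt a b p κ m π K ≤ H)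
    (hi : i < K) (hj : j < K) (hij : i ≠ j)
    (h : GoodK H f a b (κ i) π A₀ A₁ A₂) (h' : GoodK H f a b (κ j) π B₀ B₁ B₂) {x y : GN}
    (hx : Dk π x) (hy : Dk π y) : ¬ H.Adj (κ i (.v x)) (κ j (.v y)) := by
  intro hxy
  obtain ⟨d0, d1, d2, d3, d4⟩ := hl.cell_uniq' hle hi hj hij h h'
  obtain ⟨c0, c1, c2, c3, c4⟩ := hl.cell_uniq' hle hj hi (Ne.symm hij) h' h
  have mx := h.mem x hx
  have my := h'.mem y hy
  have q1 : i = j + 2 := by
    apply d4
    rcases h.nbr x _ hx hxy with h1 | h1 | h1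
    · exact absurd my (Set.disjoint_left.1 d0 h1)
    · exact absurd h1 (Set.disjoint_left.1 c3 my)
    · exact ⟨_, h1, my⟩
  have q2 : j = i + 2 := by
    apply c4
    rcases h'.nbr y _ hy hxy.symm with h1 | h1 | h1
    · exact absurd mx (Set.disjoint_left.1 c0 h1)
    · exact absurd h1 (Set.disjoint_left.1 d3 mx)
    · exact ⟨_, h1, mx⟩
  omega

end

end Pool.Agent.Helper58.DG3
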