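import Pool.Agent.Helper65.DG3.Disj3
import Pool.Agent.Helper68.RAC1.Count
import Pool.Agent.Helper49.DG2.Count2
import Pool.Agent.Helper82.DG.EdgesD

/-!
# Threads: the number of edges
-/

set_option autoImplicit false

namespace Pool.Agent.Helper58.DG3

open Pool.Agent.Helper18.RAC Complex
open Pool.Agent.Helper82.DG (NE SE NW SW Fr CoreH)
open Pool.Agent.Helper68.RAC1 (Gd numA numG numB)

variable {V : Type*} {a b : V} {p : ℕ → V} {κ : ℕ → GX → V} {m K : ℕ} {π : Par}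

theorem gd_iff {x : GN} : Gd π x ↔ Dk π x := by cases x <;> exact Iff.rfl

theorem Dk.ok' {x : GN} (h : Dk π x) : x.ok π := Gd.ok (gd_iff.2 h)

theorem gd_fin (π : Par) : {x : GN | Gd π x}.Finite :=
  (GN.ok_finite π).subset fun _ h => Gd.ok h

theorem bd_fin (π : Par) : {x : GN | x.ok π ∧ ¬ Gd π x}.Finite :=
  (GN.ok_finite π).subset fun _ h => h.1

/-- the next vertex of the thread -/
def GN.nx : GN → GN
  | .T k x y t => .T k x y (t + 1)
  | x => x

/-- the edges inside the threads -/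
theorem links (κ : ℕ → GX → V) (K : ℕ) (π : Par) : ∃ L : Set (Sym2 V),
    L.ncard ≤ K * numG π ∧
    ∀ i < K, ∀ c : GE, c.isl π → s(κ i (c.ends π).1, κ i (c.ends π).2) ∈ L := by
  classical
  set S : Finset (Sym2 V) := (Finset.range K ×ˢ (gd_fin π).toFinset).image
    (fun z => s(κ z.1 (.v z.2), κ z.1 (.v z.2.nx))) with hS
  refine ⟨(S : Set (Sym2 V)), ?_, ?_⟩
  · rw [Set.ncard_coe_finset]
    refine Finset.card_image_le.trans ?_
    rw [Finset.card_product, Finset.card_range]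
    unfold numG
    rw [Set.ncard_eq_toFinset_card _ (gd_fin π)]
  · intro i hi c hc
    cases c with
    | tt k x y t =>
      obtain ⟨h1, h2, h3⟩ := hc
      rw [Finset.mem_coe, hS, Finset.mem_image]
      refine ⟨(i, .T k x y t), ?_, rfl⟩
      rw [Finset.mem_product, Finset.mem_range, Set.Finite.mem_toFinset]
      exact ⟨hi, h1, h2, by omega⟩
    | _ => exact absurd hc id

/-- the vertices which are not good vertices of good kites -/
theorem LayD.cover (hl : LayD a b p κ m K π) (Bad : Finset ℕ) (hBad : Bad.card ≤ 450) :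
    ∃ Z : Finset V, Z.card ≤ 2 + m + K * numB π + 450 * numA π ∧
      ∀ v, v ∈ Z ∨ ∃ i x, i < K ∧ i ∉ Bad ∧ Dk π x ∧ v = κ i (.v x) := by
  classical
  set Z0 : Finset V := {a, b} with hZ0
  set Z1 : Finset V := (Finset.range m).image p with hZ1
  set Z2 : Finset V := (Finset.range K ×ˢ (bd_fin π).toFinset).image
    (fun z => κ z.1 (.v z.2)) with hZ2
  set Z3 : Finset V := (Bad ×ˢ (GN.ok_finite π).toFinset).image
    (fun z => κ z.1 (.v z.2)) with hZ3
  have c0 : Z0.card ≤ 2 := Finset.card_le_two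
  have c1 : Z1.card ≤ m := by simpa using Finset.card_image_le (s := Finset.range m) (f := p)
  have c2 : Z2.card ≤ K * numB π := by
    refine Finset.card_image_le.trans ?_
    rw [Finset.card_product, Finset.card_range]
    unfold numB
    rw [Set.ncard_eq_toFinset_card _ (bd_fin π)]
  have c3 : Z3.card ≤ 450 * numA π := by
    refine Finset.card_image_le.trans ?_
    rw [Finset.card_product]
    unfold numA
    rw [Set.ncard_eq_toFinset_card _ (GN.ok_finite π)]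
    exact Nat.mul_le_mul_right _ hBad
  refine ⟨Z0 ∪ (Z1 ∪ (Z2 ∪ Z3)), ?_, ?_⟩
  · have d1 := Finset.card_union_le Z0 (Z1 ∪ (Z2 ∪ Z3))
    have d2 := Finset.card_union_le Z1 (Z2 ∪ Z3)
    have d3 := Finset.card_union_le Z2 Z3
    omega
  · intro v
    simp only [Finset.mem_union]
    rcases hl.cov v with h | h | ⟨j, hj, rfl⟩ | ⟨i, hi, x, hx, rfl⟩
    · exact Or.inl (Or.inl (by rw [hZ0, h]; simp))
    · exact Or.inl (Or.inl (by rw [hZ0, h]; simp))
    · exact Or.inl (Or.inr (Or.inl (Finset.mem_image_of_mem _ (Finset.mem_range.2 hj))))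
    · by_cases hg : Dk π x
      · by_cases hib : i ∈ Bad
        · refine Or.inl (Or.inr (Or.inr (Or.inr ?_)))
          rw [hZ3, Finset.mem_image]
          refine ⟨(i, x), ?_, rfl⟩
          rw [Finset.mem_product, Set.Finite.mem_toFinset]
          exact ⟨hib, hx⟩
        · exact Or.inr ⟨i, x, hi, hib, hg, rfl⟩
      · refine Or.inl (Or.inr (Or.inr (Or.inl ?_)))
        rw [hZ2, Finset.mem_image]
        refine ⟨(i, x), ?_, rfl⟩
        rw [Finset.mem_product, Finset.mem_range, Set.Finite.mem_toFinset]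
        exact ⟨hi, hx, fun h => hg (gd_iff.1 h)⟩

/-- the number of edges, from the good kites -/
theorem LayD.edges_of [Finite V] (hl : LayD a b p κ m K π) {H : SimpleGraph V}
    (hle : GDt a b p κ m π K ≤ H) {g : V → ℂ} (hg1 : IsRAC H g)
    (hgood : ∃ B : Finset ℕ, B.card ≤ 10 ∧ ∀ i, 19 ≤ i → i + 20 ≤ K →
      (∀ j, i ≤ j + 19 → j ≤ i + 21 → j ∉ B) →
      ∃ A₀ A₁ A₂, GoodK H g a b (κ i) π A₀ A₁ A₂) :
    H.edgeSet.ncard ≤ K * numG π + 33 * (2 + m + K * numB π + 450 * numA π) := by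
  classical
  obtain ⟨B, hB, hgood⟩ := hgood
  obtain ⟨Bad, hBad, hBad'⟩ := Pool.Agent.Helper82.DG.card_bad B hB K
  obtain ⟨Z, hZ, hcov⟩ := hl.cover Bad hBad
  obtain ⟨L, hL, hlink⟩ := links κ K π
  have hex : ∀ i, ∃ A : Fin 3 → Set ℂ, i < K → i ∉ Bad →
      GoodK H g a b (κ i) π (A 0) (A 1) (A 2) := by
    intro i
    by_cases h1 : i < K ∧ i ∉ Bad
    · obtain ⟨h2, h3, h4⟩ := hBad' i h1.1 h1.2
      obtain ⟨A₀, A₁, A₂, hA⟩ := hgood i h2 h3 h4
      exact ⟨![A₀, A₁, A₂], fun _ _ => hA⟩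
    · exact ⟨fun _ => ∅, fun h2 h3 => absurd ⟨h2, h3⟩ h1⟩
  choose A hA using hex
  -- the cells of one kind are disjoint
  have hdis : ∀ i j t, i < K → i ∉ Bad → j < K → j ∉ Bad → ∀ z, z ∈ A i t → z ∈ A j t →
      i = j := by
    intro i j t h1 h2 h3 h4 z hz hz'
    by_contra hij
    obtain ⟨d0, d1, d2, -, -⟩ := hl.cell_uniq' hle h1 h3 hij (hA i h1 h2) (hA j h3 h4)
    fin_cases t
    · exact Set.disjoint_left.1 d0 hz hz'
    · exact Set.disjoint_left.1 d1 hz hz'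
    · exact Set.disjoint_left.1 d2 hz hz'
  -- the good vertices of good kites
  set S : Set V := {v | ∃ i x, i < K ∧ i ∉ Bad ∧ Dk π x ∧ v = κ i (.v x)} with hS
  set D : Finset V := (Set.toFinite S).toFinset with hD
  have hmemD : ∀ v, v ∈ D ↔ ∃ i x, i < K ∧ i ∉ Bad ∧ Dk π x ∧ v = κ i (.v x) := by
    intro v
    rw [hD, Set.Finite.mem_toFinset]
    exact Iff.rfl
  have key := Pool.Agent.Helper74.DG2.count_le hg1 D Z (fun v => by
    rcases hcov v with h1 | h1
    · exact Or.inr h1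
    · exact Or.inl ((hmemD v).2 h1)) L (C := 27) ?_ ?_
  · omega
  · intro x hx y hy hxy
    obtain ⟨i, x', h1, h2, h3, rfl⟩ := (hmemD x).1 hx
    obtain ⟨j, y', h1', h2', h3', rfl⟩ := (hmemD y).1 hy
    by_cases hij : i = j
    · subst hij
      obtain ⟨c, hc, he⟩ := (hA i h1 h2).dd x' y' h3 h3' hxy
      rw [he]
      exact hlink i h1 c hc
    · exact absurd hxy (hl.dk_notAdj hle h1 h1' hij (hA i h1 h2) (hA j h1' h2') h3 h3')
  · intro v _
    have hg : ∀ i, ∃ q : GN → Fin 9, i < K → i ∉ Bad → ∀ x y, Dk π x → Dk π y →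
        H.Adj (κ i (.v x)) v → H.Adj (κ i (.v y)) v → q x = q y → x = y := by
      intro i
      by_cases h1 : i < K ∧ i ∉ Bad
      · obtain ⟨q, hq⟩ := (hA i h1.1 h1.2).cnt v
        exact ⟨q, fun _ _ => hq⟩
      · exact ⟨fun _ => 0, fun h2 h3 => absurd ⟨h2, h3⟩ h1⟩
    choose q hq using hg
    have hφ : ∀ x, ∃ φ : Fin 3 × Fin 9, x ∈ D → H.Adj x v → ∃ i y, i < K ∧ i ∉ Bad ∧ Dk π y ∧
        x = κ i (.v y) ∧ g v ∈ A i φ.1 ∧ φ.2 = q i y := by
      intro x
      by_cases h1 : x ∈ D ∧ H.Adj x v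
      · obtain ⟨i, y, h2, h3, h4, rfl⟩ := (hmemD x).1 h1.1
        rcases (hA i h2 h3).nbr y v h4 h1.2 with h5 | h5 | h5
        · exact ⟨(0, q i y), fun _ _ => ⟨i, y, h2, h3, h4, rfl, h5, rfl⟩⟩
        · exact ⟨(1, q i y), fun _ _ => ⟨i, y, h2, h3, h4, rfl, h5, rfl⟩⟩
        · exact ⟨(2, q i y), fun _ _ => ⟨i, y, h2, h3, h4, rfl, h5, rfl⟩⟩
      · exact ⟨(0, 0), fun h2 h3 => absurd ⟨h2, h3⟩ h1⟩
    choose φ hφ using hφ
    have h27 : (Set.univ : Set (Fin 3 × Fin 9)).ncard = 27 := by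
      rw [Set.ncard_univ, Nat.card_eq_fintype_card]
      rfl
    rw [← h27]
    refine Set.ncard_le_ncard_of_injOn φ (fun _ _ => Set.mem_univ _) ?_ (Set.toFinite _)
    intro x hx x' hx' hxx
    obtain ⟨i, y, h1, h2, h3, h4, h5, h6⟩ := hφ x hx.1 hx.2
    obtain ⟨i', y', h1', h2', h3', h4', h5', h6'⟩ := hφ x' hx'.1 hx'.2
    rw [← hxx] at h5' h6'
    have hii := hdis i i' _ h1 h2 h1' h2' _ h5 h5'
    subst hii
    have hyy := hq i h1 h2 y y' h3 h3' (h4 ▸ hx.2) (h4' ▸ hx'.2) (h6.symm.trans h6')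
    rw [h4, h4', hyy]

end Pool.Agent.Helper58.DG3
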