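import Pool.Agent.Helper74.DG3.Frame
import Pool.Agent.Helper82.DG3.CRect

/-!
# Slope 1: the edges which leave the first row and the first column

`FD.exit_entry`: an edge of `D false c`, `1 ≤ c`, `c + 1 < M`, to a vertex which is not one of the
three neighbours in the frame ends in the open rectangle of the first row, or it is vertical and
ends above the horizontal line number `1`.
-/

set_option autoImplicit false

namespace Pool.Agent.Helper74.DG3

open Pool.Agent.Helper18.RAC
open Pool.Agent.Helper82.DG (NE SE NW SW Rect axis_x axis_y ne_sw sw_sw pt_eq_D)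
open Pool.Agent.Helper82.DG3 (CRect)

variable {V : Type*}

/-- a rectangle whose sides are covered with room to spare -/
theorem _root_.Pool.Agent.Helper82.DG.Rect.toC {H : SimpleGraph V} {X Y : V → ℝ}
    {x1 x2 y1 y2 : ℝ} (h : Rect H X Y x1 x2 y1 y2) : CRect H X Y x1 x2 y1 y2 where
  hx := h.hx
  hy := h.hy
  l := by
    obtain ⟨p, p', h1, h2, h3, h4, h5⟩ := h.l
    exact ⟨p, p', h1, h2, h3, h4.le, h5.le⟩
  r := by
    obtain ⟨p, p', h1, h2, h3, h4, h5⟩ := h.r
    exact ⟨p, p', h1, h2, h3, h4.le, h5.le⟩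
  b := by
    obtain ⟨p, p', h1, h2, h3, h4, h5⟩ := h.b
    exact ⟨p, p', h1, h2, h3, h4.le, h5.le⟩
  t := by
    obtain ⟨p, p', h1, h2, h3, h4, h5⟩ := h.t
    exact ⟨p, p', h1, h2, h3, h4.le, h5.le⟩

namespace FD

variable {H : SimpleGraph V} {X Y : V → ℝ} {E F a b : ℝ} {xc yc : Bool → V}
    {P U : Bool → ℕ → V} {C : Bool → ℕ → Bool → V} {D : Bool → ℕ → V} {M : ℕ}
    {c r i j : ℕ} {p p' v w : V}

/-- the rectangles of the first column -/
theorem rect_entry (h : FD H X Y E F a b xc yc P U C D M) (hr : r + 1 < M) :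
    Rect H X Y (X (P false 0)) (X (P false 2)) (Y (P true (2 * r))) (Y (P true (2 * r + 2))) :=
  (h.swap.rect0 hr).swap

/-- an edge from a vertex of the first row -/
theorem exit_entry (h : FD H X Y E F a b xc yc P U C D M) (hc1 : 1 ≤ c) (hc : c + 1 < M)
    (ad : H.Adj (D false c) v) (n1 : v ≠ P false (2 * c + 1)) (n2 : v ≠ D false (c - 1))
    (n3 : v ≠ D false (c + 1)) :
    (X (P false (2 * c)) < X v ∧ X v < X (P false (2 * c + 2)) ∧
      Y (P true 0) < Y v ∧ Y v < Y (P true 2)) ∨
    (X v = X (P false (2 * c + 1)) ∧ Y (P true 2) < Y v) := by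
  have hM := h.hM
  have x1 := h.X_lt (i := 2 * c) (j := 2 * c + 1) (by omega) (by omega)
  have x2 := h.X_lt (i := 2 * c + 1) (j := 2 * c + 2) (by omega) (by omega)
  have y1 := h.Y_lt (i := 0) (j := 1) (by omega) (by omega)
  have y2 := h.Y_lt (i := 1) (j := 2) (by omega) (by omega)
  have eX := h.X_D (c := c) (by omega)
  have eY := h.Y_row c (by omega)
  have hr := h.rect0 hc
  have adP := (h.pd false c (by omega)).symm
  have hP := h.hP0 (2 * c + 1) (by omega)
  have hD := h.D_NE false (c := c) (by omega)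
  -- `v` is not at the point of `D false c`
  have hpt : X v = X (D false c) → Y v = Y (D false c) → False := by
    intro e1 e2
    exact ad.ne' (pt_eq_D h.hd adP n1 e1 e2)
  rcases hr.through h.hd ad (s := 0) le_rfl zero_le_one (by linarith) (by linarith) (by linarith)
    (by linarith) with g | g | g
  · exact Or.inl g
  · -- vertical
    rcases lt_trichotomy (Y v) (Y (D false c)) with e | e | e
    · exact absurd (axis_y h.hd ad adP g eX.symm
        (Or.inr ⟨e, by linarith [hP.2.1, hD.2.1]⟩)) n1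
    · exact (hpt g e).elim
    · rcases lt_trichotomy (Y v) (Y (P true 2)) with f | f | f
      · exact Or.inl ⟨by linarith, by linarith, by linarith, f⟩
      · exact (hr.toC.swap.side h.hd.swap (v := v) f (by linarith) (by linarith)).elim
      · exact Or.inr ⟨by linarith, f⟩
  · -- horizontal
    exfalso
    rcases lt_trichotomy (X v) (X (D false c)) with e | e | e
    · have ad' : H.Adj (D false c) (D false (c - 1)) := by
        have := h.dd false (c - 1) (by omega)
        rw [Nat.sub_add_cancel hc1] at this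
        exact this.symm
      have e1 := h.Y_row (c - 1) (by omega)
      have e2 := h.X_D (c := c - 1) (by omega)
      have e3 := h.X_lt (i := 2 * (c - 1) + 1) (j := 2 * c + 1) (by omega) (by omega)
      exact n2 (axis_x h.hd ad ad' g (by linarith) (Or.inr ⟨e, by linarith⟩))
    · exact hpt e g
    · have e1 := h.Y_row (c + 1) (by omega)
      have e2 := h.X_D (c := c + 1) (by omega)
      have e3 := h.X_lt (i := 2 * c + 1) (j := 2 * (c + 1) + 1) (by omega) (by omega)
      exact n3 (axis_x h.hd ad (h.dd false c (by omega)) g (by linarith)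
        (Or.inl ⟨e, by linarith⟩))

/-- an edge from a vertex of the first column -/
theorem exit_entry' (h : FD H X Y E F a b xc yc P U C D M) (hr1 : 1 ≤ r) (hr : r + 1 < M)
    (ad : H.Adj (D true r) v) (n1 : v ≠ P true (2 * r + 1)) (n2 : v ≠ D true (r - 1))
    (n3 : v ≠ D true (r + 1)) :
    (X (P false 0) < X v ∧ X v < X (P false 2) ∧
      Y (P true (2 * r)) < Y v ∧ Y v < Y (P true (2 * r + 2))) ∨
    (Y v = Y (P true (2 * r + 1)) ∧ X (P false 2) < X v) := by
  rcases h.swap.exit_entry hr1 hr ad n1 n2 n3 with g | g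
  · exact Or.inl ⟨g.2.2.1, g.2.2.2, g.1, g.2.1⟩
  · exact Or.inr g

/-- the second alternative of `exit_entry` as soon as `v` lies above the first row -/
theorem exit_up (h : FD H X Y E F a b xc yc P U C D M) (hc1 : 1 ≤ c) (hc : c + 1 < M)
    (ad : H.Adj (D false c) v) (n1 : v ≠ P false (2 * c + 1)) (n2 : v ≠ D false (c - 1))
    (n3 : v ≠ D false (c + 1)) (hv : Y (P true 2) ≤ Y v) :
    X v = X (P false (2 * c + 1)) ∧ Y (P true 2) < Y v := by
  rcases h.exit_entry hc1 hc ad n1 n2 n3 with g | g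
  · exact absurd hv (not_le.2 g.2.2.2)
  · exact g

theorem exit_up' (h : FD H X Y E F a b xc yc P U C D M) (hr1 : 1 ≤ r) (hr : r + 1 < M)
    (ad : H.Adj (D true r) v) (n1 : v ≠ P true (2 * r + 1)) (n2 : v ≠ D true (r - 1))
    (n3 : v ≠ D true (r + 1)) (hv : X (P false 2) ≤ X v) :
    Y v = Y (P true (2 * r + 1)) ∧ X (P false 2) < X v :=
  h.swap.exit_up hr1 hr ad n1 n2 n3 hv

/-- a vertex with an edge to the first row and an edge to the first column -/
theorem both_entries (h : FD H X Y E F a b xc yc P U C D M) (hc1 : 1 ≤ c) (hc : c + 1 < M)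
    (hr1 : 1 ≤ r) (hr : r + 1 < M)
    (ad : H.Adj (D false c) v) (n1 : v ≠ P false (2 * c + 1)) (n2 : v ≠ D false (c - 1))
    (n3 : v ≠ D false (c + 1))
    (ad' : H.Adj (D true r) v) (m1 : v ≠ P true (2 * r + 1)) (m2 : v ≠ D true (r - 1))
    (m3 : v ≠ D true (r + 1)) :
    X v = X (P false (2 * c + 1)) ∧ Y v = Y (P true (2 * r + 1)) := by
  have hM := h.hM
  have x1 := h.X_le (i := 2) (j := 2 * c) (by omega) (by omega)
  have y1 := h.Y_lt (i := 2) (j := 2 * r + 1) (by omega) (by omega)
  rcases h.exit_entry hc1 hc ad n1 n2 n3 with g | g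
  · rcases h.exit_entry' hr1 hr ad' m1 m2 m3 with k | k
    · linarith [g.1, k.2.1]
    · linarith [g.2.2.2, k.1]
  · rcases h.exit_entry' hr1 hr ad' m1 m2 m3 with k | k
    · have x2 := h.X_lt (i := 2 * c) (j := 2 * c + 1) (by omega) (by omega)
      linarith [k.2.1, g.1]
    · exact ⟨g.1, k.1⟩

/-- a vertex with an edge to the first row (column line `c`) which lies on a horizontal line above
the first row -/
theorem entry_of_Y (h : FD H X Y E F a b xc yc P U C D M) (hc1 : 1 ≤ c) (hc : c + 1 < M)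
    (hj : 2 ≤ j) (hj' : j < 2 * M)
    (ad : H.Adj (D false c) v) (n1 : v ≠ P false (2 * c + 1)) (n2 : v ≠ D false (c - 1))
    (n3 : v ≠ D false (c + 1)) (hv : Y v = Y (P true j)) :
    X v = X (P false (2 * c + 1)) :=
  (h.exit_up hc1 hc ad n1 n2 n3 (by rw [hv]; exact h.Y_le hj hj')).1

theorem entry_of_X (h : FD H X Y E F a b xc yc P U C D M) (hr1 : 1 ≤ r) (hr : r + 1 < M)
    (hj : 2 ≤ j) (hj' : j < 2 * M)
    (ad : H.Adj (D true r) v) (n1 : v ≠ P true (2 * r + 1)) (n2 : v ≠ D true (r - 1))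
    (n3 : v ≠ D true (r + 1)) (hv : X v = X (P false j)) :
    Y v = Y (P true (2 * r + 1)) :=
  h.swap.entry_of_Y hr1 hr hj hj' ad n1 n2 n3 hv

/-- the first vertex of a column line: it has an edge to the entry `D false c` and an edge to a
vertex `w` on the horizontal line `r` in a rectangle which lies to the left of the short line of
`c`, with corners on the lines -/
theorem entry_rect (h : FD H X Y E F a b xc yc P U C D M) (hc1 : 1 ≤ c) (hc : c + 1 < M)
    (ad : H.Adj (D false c) v) (n1 : v ≠ P false (2 * c + 1)) (n2 : v ≠ D false (c - 1))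
    (n3 : v ≠ D false (c + 1)) {x1 x2 y1 y2 : ℝ} (hr : CRect H X Y x1 x2 y1 y2)
    (adw : H.Adj w v) (w1 : x1 < X w) (w2 : X w < x2) (w3 : y1 < Y w) (w4 : Y w < y2)
    (hx : x2 ≤ X (P false (2 * c))) (hy : Y (P true 2) ≤ y1) :
    X v = X (P false (2 * c + 1)) ∧ Y v = Y w := by
  have hM := h.hM
  have e1 := h.X_lt (i := 2 * c) (j := 2 * c + 1) (by omega) (by omega)
  rcases h.exit_entry hc1 hc ad n1 n2 n3 with g | g
  · exfalso
    rcases hr.through h.hd adw (s := 0) le_rfl zero_le_one (by linarith) (by linarith)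
      (by linarith) (by linarith) with k | k | k
    · linarith [g.1, k.2.1]
    · linarith [g.1]
    · linarith [g.2.2.2]
  · rcases hr.through h.hd adw (s := 0) le_rfl zero_le_one (by linarith) (by linarith)
      (by linarith) (by linarith) with k | k | k
    · linarith [g.1, k.2.1]
    · linarith [g.1]
    · exact ⟨g.1, k⟩

theorem entry_rect' (h : FD H X Y E F a b xc yc P U C D M) (hr1 : 1 ≤ r) (hr : r + 1 < M)
    (ad : H.Adj (D true r) v) (n1 : v ≠ P true (2 * r + 1)) (n2 : v ≠ D true (r - 1))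
    (n3 : v ≠ D true (r + 1)) {x1 x2 y1 y2 : ℝ} (hR : CRect H X Y x1 x2 y1 y2)
    (adw : H.Adj w v) (w1 : x1 < X w) (w2 : X w < x2) (w3 : y1 < Y w) (w4 : Y w < y2)
    (hy : y2 ≤ Y (P true (2 * r))) (hx : X (P false 2) ≤ x1) :
    X v = X w ∧ Y v = Y (P true (2 * r + 1)) := by
  have := h.swap.entry_rect hr1 hr ad n1 n2 n3 hR.swap adw w3 w4 w1 w2 hy hx
  exact ⟨this.2, this.1⟩

end FD

end Pool.Agent.Helper74.DG3
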